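import Mathlib
import Pool.Agent.U73.LC.Stm

/-!
Project LC, package CUSP (helper612): the pairs with large `a`.
-/

set_option autoImplicit false

namespace Pool.Agent.U612.LC

open Finset Filter Topology
open Pool.Agent.U73.LR Pool.Agent.U73.LS Pool.Agent.U73.LC

lemma tele (n0 : ℕ) (h0 : 1 ≤ n0) (N : ℕ) (hN : n0 ≤ N) :
    ∑ n ∈ Ioc n0 N, 1 / ((n : ℝ) * √n) ≤ 2 / √(n0 : ℝ) - 2 / √(N : ℝ) := by
  induction N, hN using Nat.le_induction with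
  | base => simp
  | succ N hN ih =>
    have hN1 : 1 ≤ N := h0.trans hN
    have hN1' : (1 : ℝ) ≤ N := by exact_mod_cast hN1
    have key : 1 / (((N + 1 : ℕ) : ℝ) * √((N + 1 : ℕ) : ℝ)) ≤
        2 / √(N : ℝ) - 2 / √((N + 1 : ℕ) : ℝ) := by
      obtain ⟨x, hx⟩ : ∃ x : ℝ, x = √(N : ℝ) := ⟨_, rfl⟩
      obtain ⟨y, hy⟩ : ∃ y : ℝ, y = √((N + 1 : ℕ) : ℝ) := ⟨_, rfl⟩
      have hx0 : 0 < x := by rw [hx]; exact Real.sqrt_pos.2 (by linarith)
      have hx2 : x ^ 2 = N := by rw [hx]; exact Real.sq_sqrt (by linarith)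
      have hy2 : y ^ 2 = ((N + 1 : ℕ) : ℝ) := by rw [hy]; exact Real.sq_sqrt (by positivity)
      have hy2' : y ^ 2 = x ^ 2 + 1 := by rw [hy2, hx2]; push_cast; ring
      have hy0 : 0 < y := by rw [hy]; exact Real.sqrt_pos.2 (by positivity)
      have hxy : x ≤ y := by nlinarith
      rw [← hx, ← hy, ← hy2, div_sub_div _ _ hx0.ne' hy0.ne', div_le_div_iff₀ (by positivity)
        (by positivity)]
      have h1 : 1 ≤ 2 * (y - x) * y := by nlinarith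
      have h2 : y ^ 2 * 1 ≤ y ^ 2 * (2 * (y - x) * y) := mul_le_mul_of_nonneg_left h1 (by positivity)
      nlinarith
    rw [Finset.sum_Ioc_succ_top hN]
    linarith

lemma fiber (T : ℝ) (n : ℕ) (hT : 1 ≤ T) (hn : 1 ≤ n) (hnT : T ^ 6 ≤ (n : ℝ) ^ 3) (S : Finset ℤ)
    (hS : ∀ b ∈ S, |((n : ℤ) : ℝ) ^ 3 - (b : ℝ) ^ 2| ≤ T ^ 6) :
    (S.card : ℝ) ≤ 2 * (2 * T ^ 6 * (1 / ((n : ℝ) * √(n : ℝ))) + 1) := by
  have hn' : (1 : ℝ) ≤ n := by exact_mod_cast hn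
  obtain ⟨t, ht⟩ : ∃ t : ℝ, t = T ^ 6 := ⟨_, rfl⟩
  have ht0 : 0 < t := by rw [ht]; positivity
  rw [← ht] at hnT hS ⊢
  obtain ⟨s, hs⟩ : ∃ s : ℝ, s = √((n : ℝ) ^ 3 + t) := ⟨_, rfl⟩
  obtain ⟨r, hr⟩ : ∃ r : ℝ, r = √((n : ℝ) ^ 3 - t) := ⟨_, rfl⟩
  obtain ⟨q, hq⟩ : ∃ q : ℝ, q = √(n : ℝ) := ⟨_, rfl⟩
  have hq0 : 0 < q := by rw [hq]; exact Real.sqrt_pos.2 (by linarith)
  have hq2 : q ^ 2 = n := by rw [hq]; exact Real.sq_sqrt (by linarith)
  have hs0 : 0 ≤ s := by rw [hs]; exact Real.sqrt_nonneg _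
  have hr0 : 0 ≤ r := by rw [hr]; exact Real.sqrt_nonneg _
  have hs2 : s ^ 2 = (n : ℝ) ^ 3 + t := by rw [hs]; exact Real.sq_sqrt (by positivity)
  have hr2 : r ^ 2 = (n : ℝ) ^ 3 - t := by rw [hr]; exact Real.sq_sqrt (by linarith)
  have hnq : (n : ℝ) * q ≤ s := by
    rw [hs]
    apply Real.le_sqrt_of_sq_le
    have : ((n : ℝ) * q) ^ 2 = (n : ℝ) ^ 3 := by rw [mul_pow, hq2]; ring
    rw [this]; linarith
  have hrs : r ≤ s := by rw [hr, hs]; exact Real.sqrt_le_sqrt (by linarith)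
  have hsr : s - r ≤ 2 * t * (1 / ((n : ℝ) * q)) := by
    rw [mul_one_div, le_div_iff₀ (by positivity)]
    have e : (s - r) * (s + r) = 2 * t := by ring_nf; rw [hs2, hr2]; ring
    have : (s - r) * ((n : ℝ) * q) ≤ (s - r) * (s + r) :=
      mul_le_mul_of_nonneg_left (by linarith) (by linarith)
    linarith
  obtain ⟨K, hK⟩ : ∃ K : Finset ℕ, K = Finset.Icc ⌈r⌉₊ ⌊s⌋₊ := ⟨_, rfl⟩
  have hsub : S ⊆ K.image (fun k : ℕ => (k : ℤ)) ∪ K.image (fun k : ℕ => -(k : ℤ)) := by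
    intro b hb
    have hb1 := abs_le.1 (hS b hb)
    have hb2 : ((n : ℤ) : ℝ) = (n : ℝ) := by push_cast; rfl
    rw [hb2] at hb1
    have hk : b.natAbs ∈ K := by
      rw [hK, Finset.mem_Icc]
      have e : ((b.natAbs : ℕ) : ℝ) = |(b : ℝ)| := by
        rw [Nat.cast_natAbs]; push_cast; rfl
      constructor
      · rw [Nat.ceil_le, e, hr, ← Real.sqrt_sq_eq_abs]
        exact Real.sqrt_le_sqrt (by linarith [hb1.2])
      · rw [Nat.le_floor_iff hs0, e, hs, ← Real.sqrt_sq_eq_abs]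
        exact Real.sqrt_le_sqrt (by linarith [hb1.1])
    rw [Finset.mem_union, Finset.mem_image, Finset.mem_image]
    rcases le_total 0 b with h | h
    · left; exact ⟨b.natAbs, hk, by omega⟩
    · right; exact ⟨b.natAbs, hk, by omega⟩
  have hcard : S.card ≤ 2 * K.card := by
    calc S.card ≤ _ := Finset.card_le_card hsub
      _ ≤ _ := Finset.card_union_le _ _
      _ ≤ K.card + K.card := add_le_add Finset.card_image_le Finset.card_image_le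
      _ = _ := by ring
  have hKc : (K.card : ℝ) ≤ s - r + 1 := by
    rw [hK, Nat.card_Icc]
    rcases le_total ⌈r⌉₊ (⌊s⌋₊ + 1) with h | h
    · rw [Nat.cast_sub h]
      push_cast
      have h1 := Nat.le_ceil r
      have h2 := Nat.floor_le hs0
      linarith
    · rw [Nat.sub_eq_zero_of_le h]
      push_cast
      linarith
  have hcard' : (S.card : ℝ) ≤ 2 * K.card := by exact_mod_cast hcard
  rw [← hq]
  linarith

theorem t_CUSP : S_CUSP := by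
  classical
  refine ⟨12, by norm_num, ?_⟩
  intro Z T M hZ hT hM
  rw [cnt_def]
  obtain ⟨y, hy⟩ : ∃ y : ℝ, y = M * T ^ 2 := ⟨_, rfl⟩
  have hT2 : 1 ≤ T ^ 2 := by nlinarith
  have hy2 : 2 * T ^ 2 ≤ y := by rw [hy]; nlinarith
  have hy2' : 2 ≤ y := by linarith
  obtain ⟨n0, hn0⟩ : ∃ n0 : ℕ, n0 = ⌊y⌋₊ := ⟨_, rfl⟩
  obtain ⟨N, hN⟩ : ∃ N : ℕ, N = ⌊Z ^ 2⌋₊ := ⟨_, rfl⟩
  have hn0y : y < n0 + 1 := by rw [hn0]; exact Nat.lt_floor_add_one y
  have hn0y' : (n0 : ℝ) ≤ y := by rw [hn0]; exact Nat.floor_le (by linarith)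
  have hNZ : (N : ℝ) ≤ Z ^ 2 := by rw [hN]; exact Nat.floor_le (by positivity)
  have hn01 : 1 ≤ n0 := by rw [hn0]; exact Nat.le_floor (by push_cast; linarith)
  have hcube : ∀ u : ℝ, y ≤ u → T ^ 6 ≤ u ^ 3 := by
    intro u hu
    have h1 : T ^ 2 ≤ u := by linarith
    calc T ^ 6 = (T ^ 2) ^ 3 := by ring
      _ ≤ u ^ 3 := pow_le_pow_left₀ (by positivity) h1 3
  have hcube' : ∀ u : ℝ, y ≤ u → T ^ 6 < u ^ 3 := by
    intro u hu
    have h1 : T ^ 2 < u := by linarith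
    calc T ^ 6 = (T ^ 2) ^ 3 := by ring
      _ < u ^ 3 := pow_lt_pow_left₀ h1 (by positivity) (by norm_num)
  obtain ⟨B, hB⟩ : ∃ B : ℕ → Finset ℤ, ∀ n, B n = (Icc (-⌊Z ^ 3⌋) ⌊Z ^ 3⌋).filter
    (fun b : ℤ => |((n : ℤ) : ℝ) ^ 3 - (b : ℝ) ^ 2| ≤ T ^ 6) := ⟨_, fun _ => rfl⟩
  have hsub : (Pool.Agent.U73.LR.box Z).filter (fun q : ℤ × ℤ => M * T ^ 2 < |(q.1 : ℝ)| ∧
      |(q.1 : ℝ) ^ 3 - (q.2 : ℝ) ^ 2| ≤ T ^ 6) ⊆
      (Ioc n0 N).biUnion fun n => (B n).image fun b => ((n : ℤ), b) := by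
    rintro ⟨a, b⟩ hab
    rw [Finset.mem_filter] at hab
    obtain ⟨h1, h2, h3⟩ := hab
    unfold Pool.Agent.U73.LR.box at h1
    rw [Finset.mem_product] at h1
    obtain ⟨h4, h5⟩ := h1
    simp only at h2 h3 h4 h5
    rw [← hy] at h2
    rw [Finset.mem_Icc] at h4
    have ha : 0 < a := by
      by_contra hcon
      push Not at hcon
      have ha' : (a : ℝ) ≤ 0 := by exact_mod_cast hcon
      rw [abs_of_nonpos ha'] at h2
      have h6 := hcube' (-(a : ℝ)) h2.le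
      have h7 := (abs_le.1 h3).1
      have h8 : (0 : ℝ) ≤ (b : ℝ) ^ 2 := sq_nonneg _
      have h9 : (-(a : ℝ)) ^ 3 = -((a : ℝ) ^ 3) := by ring
      rw [h9] at h6
      linarith
    have ha' : (0 : ℝ) < a := by exact_mod_cast ha
    rw [abs_of_pos ha'] at h2
    obtain ⟨n, hn⟩ := Int.eq_ofNat_of_zero_le ha.le
    subst hn
    rw [Finset.mem_biUnion]
    refine ⟨n, ?_, ?_⟩
    · rw [Finset.mem_Ioc]
      constructor
      · have : (n0 : ℝ) < n := lt_of_le_of_lt hn0y' (by simpa using h2)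
        exact_mod_cast this
      · rw [hN]
        apply Nat.le_floor
        have := Int.le_floor.1 h4.2
        simpa using this
    · rw [Finset.mem_image]
      refine ⟨b, ?_, rfl⟩
      rw [hB, Finset.mem_filter]
      exact ⟨h5, h3⟩
  have hcard : (((Pool.Agent.U73.LR.box Z).filter (fun q : ℤ × ℤ => M * T ^ 2 < |(q.1 : ℝ)| ∧
      |(q.1 : ℝ) ^ 3 - (q.2 : ℝ) ^ 2| ≤ T ^ 6)).card : ℝ) ≤
      ∑ n ∈ Ioc n0 N, 2 * (2 * T ^ 6 * (1 / ((n : ℝ) * √(n : ℝ))) + 1) := by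
    have c1 : ((Pool.Agent.U73.LR.box Z).filter (fun q : ℤ × ℤ => M * T ^ 2 < |(q.1 : ℝ)| ∧
      |(q.1 : ℝ) ^ 3 - (q.2 : ℝ) ^ 2| ≤ T ^ 6)).card ≤ ∑ n ∈ Ioc n0 N, (B n).card :=
      (Finset.card_le_card hsub).trans (Finset.card_biUnion_le.trans
        (Finset.sum_le_sum fun n _ => Finset.card_image_le))
    have c2 : (((Pool.Agent.U73.LR.box Z).filter (fun q : ℤ × ℤ => M * T ^ 2 < |(q.1 : ℝ)| ∧
      |(q.1 : ℝ) ^ 3 - (q.2 : ℝ) ^ 2| ≤ T ^ 6)).card : ℝ) ≤ ∑ n ∈ Ioc n0 N, ((B n).card : ℝ) := by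
      exact_mod_cast c1
    refine c2.trans (Finset.sum_le_sum fun n hn => ?_)
    rw [Finset.mem_Ioc] at hn
    have hn1 : ((n0 + 1 : ℕ) : ℝ) ≤ n := by exact_mod_cast hn.1
    push_cast at hn1
    refine fiber T n hT (by omega) (hcube n (by linarith)) (B n) ?_
    intro b hb
    rw [hB, Finset.mem_filter] at hb
    exact hb.2
  refine hcard.trans ?_
  rcases le_total n0 N with hNN | hNN
  · have htel := tele n0 hn01 N hNN
    have e1 : ∑ n ∈ Ioc n0 N, 2 * (2 * T ^ 6 * (1 / ((n : ℝ) * √(n : ℝ))) + 1) =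
        4 * T ^ 6 * ∑ n ∈ Ioc n0 N, 1 / ((n : ℝ) * √(n : ℝ)) + 2 * ((N - n0 : ℕ) : ℝ) := by
      rw [Finset.mul_sum, ← Nat.card_Ioc, Finset.card_eq_sum_ones]
      push_cast
      rw [Finset.mul_sum, ← Finset.sum_add_distrib]
      refine Finset.sum_congr rfl fun n _ => ?_
      ring
    rw [e1]
    have e2 : ((N - n0 : ℕ) : ℝ) ≤ Z ^ 2 := by
      rw [Nat.cast_sub hNN]
      have : (0 : ℝ) ≤ n0 := by positivity
      linarith
    have hsN : 0 ≤ 2 / √(N : ℝ) := by positivity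
    have hyp : 0 < y := by linarith
    have e3 : 2 / √(n0 : ℝ) ≤ 3 / √y := by
      have hn0p : (0 : ℝ) < n0 := by exact_mod_cast hn01
      rw [div_le_div_iff₀ (Real.sqrt_pos.2 hn0p) (Real.sqrt_pos.2 hyp)]
      have : √y ≤ 3 / 2 * √(n0 : ℝ) := by
        rw [Real.sqrt_le_left (by positivity)]
        rw [mul_pow, Real.sq_sqrt hn0p.le]
        linarith
      linarith
    have e4 : √y = √M * T := by
      rw [hy, Real.sqrt_mul (by linarith), Real.sqrt_sq (by linarith)]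
    have hM0 : 0 < √M := Real.sqrt_pos.2 (by linarith)
    have hT0 : 0 < T := by linarith
    have e5 : 4 * T ^ 6 * ∑ n ∈ Ioc n0 N, 1 / ((n : ℝ) * √(n : ℝ)) ≤ 4 * T ^ 6 * (3 / (√M * T)) := by
      refine mul_le_mul_of_nonneg_left ?_ (by positivity)
      rw [← e4]
      linarith
    have e6 : 4 * T ^ 6 * (3 / (√M * T)) = 12 * (T ^ 5 / √M) := by
      field_simp
      ring
    have hZ2 : 0 ≤ Z ^ 2 := by positivity
    linarith
  · rw [Finset.Ioc_eq_empty_of_le hNN, Finset.sum_empty]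
    positivity

end Pool.Agent.U612.LC
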